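import Pool.Agent.Helper40.SD.Pdt

/-!
# Rational curves on double covers of affine space

Let `B` be a polynomial in the variables `σ` over an algebraically closed field with
`deg B ≤ 2 W` for weights `w i` of the variables with sum `W`. Through every point `P` with
`B (P) ≠ 0` there is a curve `C`, not constant, `deg C i ≤ w i`, with `B (C (t)) = q (t) l (t) ^ 2`
and `deg q ≤ 2`.
-/

set_option autoImplicit false

namespace Pool.Agent.Helper35.UC

open Polynomial

section

variable {k σ R : Type} [Field k] [CommRing R] [Algebra k R]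

/-- the unknowns -/
abbrev Idx (w : σ → ℕ) (W : ℕ) : Type := (Σ i, Fin (w i)) ⊕ (Fin (W - 1) ⊕ Fin 2)

/-- the curve with the coefficients `v` -/
noncomputable def cur (w : σ → ℕ) (W : ℕ) (P : σ → k) (v : Idx w W → R) (i : σ) : R[X] :=
  C (algebraMap k R (P i)) + ∑ j : Fin (w i), C (v (Sum.inl ⟨i, j⟩)) * X ^ ((j : ℕ) + 1)

noncomputable def ell (w : σ → ℕ) (W : ℕ) (v : Idx w W → R) : R[X] :=
  1 + ∑ j : Fin (W - 1), C (v (Sum.inr (Sum.inl j))) * X ^ ((j : ℕ) + 1)

noncomputable def qu (w : σ → ℕ) (W : ℕ) (c : k) (v : Idx w W → R) : R[X] :=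
  C (algebraMap k R c) + C (v (Sum.inr (Sum.inr 0))) * X + C (v (Sum.inr (Sum.inr 1))) * X ^ 2

noncomputable def dif (w : σ → ℕ) (W : ℕ) (B : MvPolynomial σ k) (P : σ → k)
    (v : Idx w W → R) : R[X] :=
  MvPolynomial.aeval (cur w W P v) B - qu w W (MvPolynomial.eval P B) v * ell w W v ^ 2

theorem map_dif {R' : Type} [CommRing R'] [Algebra k R'] (w : σ → ℕ) (W : ℕ)
    (B : MvPolynomial σ k) (P : σ → k) (v : Idx w W → R) (φ : R →ₐ[k] R') :
    (dif w W B P v).map (φ : R →+* R') = dif w W B P (fun i => φ (v i)) := by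
  have h1 : ∀ i, (cur w W P v i).map (φ : R →+* R') = cur w W P (fun i => φ (v i)) i := by
    intro i
    simp [cur, Polynomial.map_sum]
  have h2 : (ell w W v).map (φ : R →+* R') = ell w W (fun i => φ (v i)) := by
    simp [ell, Polynomial.map_sum]
  have h3 : (qu w W (MvPolynomial.eval P B) v).map (φ : R →+* R') =
      qu w W (MvPolynomial.eval P B) (fun i => φ (v i)) := by
    simp [qu]
  have h4 : (MvPolynomial.aeval (cur w W P v) B).map (φ : R →+* R') =
      MvPolynomial.aeval (cur w W P (fun i => φ (v i))) B := by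
    have h5 : (mapAlgHom φ).comp (MvPolynomial.aeval (cur w W P v)) =
        MvPolynomial.aeval (cur w W P (fun i => φ (v i))) := by
      ext i
      simp only [AlgHom.comp_apply, MvPolynomial.aeval_X]
      rw [← h1]
      rfl
    rw [← h5]
    rfl
  rw [dif, Polynomial.map_sub, Polynomial.map_mul, Polynomial.map_pow, h2, h3, h4]
  rfl

end

section

variable {k σ : Type} [Field k] (w : σ → ℕ) (W : ℕ)

theorem natDegree_cur (P : σ → k) (v : Idx w W → k) (i : σ) :
    (cur w W P v i).natDegree ≤ w i := by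
  refine (natDegree_add_le _ _).trans (max_le ?_ ?_)
  · rw [natDegree_C]
    exact Nat.zero_le _
  · refine natDegree_sum_le_of_forall_le _ _ fun j _ => ?_
    exact (natDegree_C_mul_X_pow_le _ _).trans j.2

theorem natDegree_ell (v : Idx w W → k) : (ell w W v).natDegree ≤ W - 1 := by
  refine (natDegree_add_le _ _).trans (max_le ?_ ?_)
  · rw [natDegree_one]
    exact Nat.zero_le _
  · refine natDegree_sum_le_of_forall_le _ _ fun j _ => ?_
    exact (natDegree_C_mul_X_pow_le _ _).trans j.2

theorem natDegree_qu (c : k) (v : Idx w W → k) : (qu w W c v).natDegree ≤ 2 := by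
  refine (natDegree_add_le _ _).trans (max_le ((natDegree_add_le _ _).trans (max_le ?_ ?_)) ?_)
  · rw [natDegree_C]
    exact Nat.zero_le _
  · exact (natDegree_C_mul_le _ _).trans (natDegree_X_le.trans (by norm_num))
  · exact natDegree_C_mul_X_pow_le _ _

theorem coeff_sum {n : ℕ} (f : Fin n → k) (j : ℕ) (hj : j < n) :
    (∑ i : Fin n, C (f i) * X ^ ((i : ℕ) + 1)).coeff (j + 1) = f ⟨j, hj⟩ := by
  rw [finsetSum_coeff, Finset.sum_eq_single ⟨j, hj⟩]
  · rw [coeff_C_mul_X_pow, if_pos rfl]
  · intro b _ hb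
    rw [coeff_C_mul_X_pow, if_neg]
    intro h
    exact hb (Fin.ext (by simpa using h.symm))
  · intro h
    exact absurd (Finset.mem_univ _) h

theorem coeff_sum_zero {n : ℕ} (f : Fin n → k) :
    (∑ i : Fin n, C (f i) * X ^ ((i : ℕ) + 1)).coeff 0 = 0 := by
  rw [finsetSum_coeff]
  exact Finset.sum_eq_zero fun i _ => by rw [coeff_C_mul_X_pow, if_neg (by omega)]

theorem coeff_cur_zero (P : σ → k) (v : Idx w W → k) (i : σ) : (cur w W P v i).coeff 0 = P i := by
  rw [cur, coeff_add, coeff_C_zero, coeff_sum_zero, add_zero]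
  rfl

theorem coeff_ell_zero (v : Idx w W → k) : (ell w W v).coeff 0 = 1 := by
  rw [ell, coeff_add, coeff_one_zero, coeff_sum_zero, add_zero]

theorem coeff_qu_zero (c : k) (v : Idx w W → k) : (qu w W c v).coeff 0 = c := by
  simp [qu]

theorem eq_zero_of_const (c : k) (P : σ → k) (v : Idx w W → k)
    (h1 : ∀ i, (cur w W P v i).natDegree = 0) (h2 : (ell w W v).natDegree = 0)
    (h3 : (qu w W c v).natDegree = 0) : v = 0 := by
  have h0 : ∀ (p : k[X]) (j : ℕ), p.natDegree = 0 → p.coeff (j + 1) = 0 := fun p j hp =>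
    coeff_eq_zero_of_natDegree_lt (by omega)
  funext i
  rcases i with ⟨i, j⟩ | j | j
  · have h := h0 _ j (h1 i)
    rw [cur, coeff_add, coeff_C_succ, zero_add,
      coeff_sum (fun j => v (Sum.inl ⟨i, j⟩)) j j.2] at h
    exact h
  · have h := h0 _ j h2
    rw [ell, coeff_add, coeff_one, if_neg (by omega), zero_add,
      coeff_sum (fun j => v (Sum.inr (Sum.inl j))) j j.2] at h
    exact h
  · fin_cases j
    · have h := h0 _ 0 h3
      simp [qu] at h
      exact h
    · have h := h0 _ 1 h3
      simp [qu] at h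
      exact h

theorem natDegree_aeval [Fintype σ] (B : MvPolynomial σ k) {d : ℕ}
    (hB : ∀ m ∈ B.support, ∑ i, m i * w i ≤ d) (c : σ → k[X]) (hc : ∀ i, (c i).natDegree ≤ w i) :
    (MvPolynomial.aeval c B).natDegree ≤ d := by
  rw [MvPolynomial.aeval_def, MvPolynomial.eval₂_eq']
  refine natDegree_sum_le_of_forall_le _ _ fun m hm => ?_
  refine (natDegree_mul_le (p := algebraMap k k[X] (B.coeff m))).trans ?_
  have h1 : (algebraMap k k[X] (B.coeff m)).natDegree = 0 := natDegree_C _
  rw [h1, zero_add]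
  refine (natDegree_prod_le _ _).trans ((Finset.sum_le_sum fun i _ => ?_).trans (hB m hm))
  exact natDegree_pow_le_of_le _ (hc i)

end

/-- **The curve.** -/
theorem exists_curve {k σ : Type} [Field k] [IsAlgClosed k] [Fintype σ] (B : MvPolynomial σ k)
    (w : σ → ℕ) (hw : 0 < ∑ i, w i) (hB : ∀ m ∈ B.support, ∑ i, m i * w i ≤ 2 * ∑ i, w i)
    (P : σ → k) (hP : MvPolynomial.eval P B ≠ 0) :
    ∃ (c : σ → k[X]) (q l : k[X]), (∀ i, (c i).coeff 0 = P i) ∧ (∀ i, (c i).natDegree ≤ w i) ∧
      (∃ i, (c i).natDegree ≠ 0) ∧ q.natDegree ≤ 2 ∧ l ≠ 0 ∧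
      MvPolynomial.aeval c B = q * l ^ 2 := by
  classical
  obtain ⟨W, hW⟩ : ∃ W, W = ∑ i, w i := ⟨_, rfl⟩
  rw [← hW] at hw hB
  let f : Fin (2 * W) → MvPolynomial (Idx w W) k := fun j =>
    (dif w W B P (MvPolynomial.X : Idx w W → MvPolynomial (Idx w W) k)).coeff ((j : ℕ) + 1)
  have hf : ∀ (v : Idx w W → k) (j : Fin (2 * W)),
      MvPolynomial.eval v (f j) = (dif w W B P v).coeff ((j : ℕ) + 1) := by
    intro v j
    have h1 := map_dif w W B P (MvPolynomial.X : Idx w W → MvPolynomial (Idx w W) k)
      (MvPolynomial.aeval v)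
    have h2 : (fun i => MvPolynomial.aeval v (MvPolynomial.X i : MvPolynomial (Idx w W) k)) =
        v := by
      funext i
      rw [MvPolynomial.aeval_X]
    rw [h2] at h1
    rw [← h1, coeff_map]
    rfl
  have h0 : dif w W B P (0 : Idx w W → k) = 0 := by
    have h1 : ∀ i, cur w W P (0 : Idx w W → k) i = C (P i) := by
      intro i
      simp [cur]
    have h2 : MvPolynomial.aeval (cur w W P (0 : Idx w W → k)) B = C (MvPolynomial.eval P B) := by
      have h3 : cur w W P (0 : Idx w W → k) = fun i => C (P i) := funext h1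
      rw [h3]
      have h4 : (MvPolynomial.aeval fun i => (C (P i) : k[X])) B =
          algebraMap k k[X] (MvPolynomial.aeval P B) := by
        rw [← MvPolynomial.aeval_algebraMap_apply]
        rfl
      rw [h4]
      exact congrArg C (RingHom.congr_fun (MvPolynomial.coe_aeval_eq_eval P) B)
    rw [dif, h2]
    simp [qu, ell]
  obtain ⟨v, hv0, hv⟩ := Pool.Agent.Helper40.SD.exists_zero f (fun j => by
    rw [hf, h0, coeff_zero]) (by
    rw [Fintype.card_fin, Nat.card_eq_fintype_card]
    simp only [Idx, Fintype.card_sum, Fintype.card_sigma, Fintype.card_fin]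
    omega)
  have hdif : dif w W B P v = 0 := by
    have hdeg : (dif w W B P v).natDegree ≤ 2 * W := by
      refine (natDegree_sub_le _ _).trans (max_le ?_ ?_)
      · exact natDegree_aeval w B hB _ (natDegree_cur w W P v)
      · refine natDegree_mul_le.trans ?_
        have h1 := natDegree_qu w W (MvPolynomial.eval P B) v
        have h2 : (ell w W v ^ 2).natDegree ≤ 2 * (W - 1) :=
          natDegree_pow_le_of_le 2 (natDegree_ell w W v)
        omega
    ext n
    rw [coeff_zero]
    rcases Nat.eq_zero_or_pos n with rfl | hn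
    · rw [dif, coeff_sub, mul_coeff_zero, pow_two, mul_coeff_zero, coeff_ell_zero, coeff_qu_zero,
        mul_one, mul_one, sub_eq_zero]
      have h1 : (MvPolynomial.aeval (cur w W P v) B).coeff 0 =
          MvPolynomial.aeval (fun i => (cur w W P v i).coeff 0) B := by
        have h2 : (constantCoeff : k[X] →+* k).comp
            (MvPolynomial.aeval (cur w W P v) : MvPolynomial σ k →ₐ[k] k[X]).toRingHom =
            (MvPolynomial.aeval (fun i => (cur w W P v i).coeff 0) :
              MvPolynomial σ k →ₐ[k] k).toRingHom := by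
          apply MvPolynomial.ringHom_ext
          · intro r
            simp
          · intro i
            simp
        exact RingHom.congr_fun h2 B
      rw [h1]
      have h3 : (fun i => (cur w W P v i).coeff 0) = P := funext (coeff_cur_zero w W P v)
      rw [h3]
      exact RingHom.congr_fun (MvPolynomial.coe_aeval_eq_eval P) B
    · by_cases h : n ≤ 2 * W
      · have h1 := hv ⟨n - 1, by omega⟩
        rw [hf] at h1
        have h2 : ((⟨n - 1, by omega⟩ : Fin (2 * W)) : ℕ) + 1 = n := by
          show n - 1 + 1 = n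
          omega
        rwa [h2] at h1
      · exact coeff_eq_zero_of_natDegree_lt (by omega)
  have heq : MvPolynomial.aeval (cur w W P v) B =
      qu w W (MvPolynomial.eval P B) v * ell w W v ^ 2 := sub_eq_zero.1 hdif
  have hl0 : ell w W v ≠ 0 := by
    intro h
    have h1 := coeff_ell_zero w W v
    rw [h, coeff_zero] at h1
    exact zero_ne_one h1
  have hq0 : qu w W (MvPolynomial.eval P B) v ≠ 0 := by
    intro h
    have h1 := coeff_qu_zero w W (MvPolynomial.eval P B) v
    rw [h, coeff_zero] at h1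
    exact hP h1.symm
  refine ⟨cur w W P v, qu w W (MvPolynomial.eval P B) v, ell w W v, coeff_cur_zero w W P v,
    natDegree_cur w W P v, ?_, natDegree_qu w W _ v, hl0, heq⟩
  by_contra hcon
  push Not at hcon
  have h1 : (MvPolynomial.aeval (cur w W P v) B).natDegree = 0 := by
    refine Nat.le_zero.1 (natDegree_aeval (fun _ => 0) B (d := 0) ?_ _ fun i => (hcon i).le)
    intro m _
    simp
  rw [heq, natDegree_mul hq0 (pow_ne_zero _ hl0), natDegree_pow] at h1
  exact hv0 (eq_zero_of_const w W (MvPolynomial.eval P B) P v hcon (by omega) (by omega))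

end Pool.Agent.Helper35.UC
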