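import Pool.Agent.Helper40.SD.Solid
import Pool.Agent.Helper35.UC.Count

/-!
# Double covers of affine space which are uniruled

`uni_solid`: `r ^ 2 = B (x 0, x 1, x 2)` is uniruled if `deg B ≤ 2 (w 0 + w 1 + w 2)` for weights
`w 0, w 1, w 2`, not all zero, of the variables.
-/

set_option autoImplicit false

namespace Pool.Agent.Helper35.UC

open IntermediateField Pool.Agent.Helper75.QC Pool.Agent.Helper40.SD

/-- If the curve `c` with the starting point `P`, a generic point of the hypersurface `L = 0`, is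
not contained in it, its generic point is a generic point of the space. -/
theorem indep_curve {Ω E : Type} [Field Ω] [Field E] [Algebra Ω E] {m : ℕ}
    (M : IntermediateField Ω E) (P : Fin m → M) (c : Fin m → Polynomial M)
    (hc : ∀ i, (c i).coeff 0 = P i) (t : E) (ht : Transcendental M t) (L : MvPolynomial (Fin m) Ω)
    (hL0 : MvPolynomial.aeval P L = 0)
    (hL : ∀ G : MvPolynomial (Fin m) Ω, MvPolynomial.aeval P G = 0 → L ∣ G)
    (hLt : MvPolynomial.aeval c L ≠ 0) :
    AlgebraicIndependent Ω (fun i => Polynomial.aeval t (c i)) := by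
  have hev : ∀ G : MvPolynomial (Fin m) Ω, Polynomial.aeval t (MvPolynomial.aeval c G) =
      MvPolynomial.aeval (fun i => Polynomial.aeval t (c i)) G := by
    intro G
    have : ((Polynomial.aeval (R := M) t).restrictScalars Ω).comp (MvPolynomial.aeval c) =
        MvPolynomial.aeval (R := Ω) (fun i => Polynomial.aeval t (c i)) := by
      ext i
      simp
    exact DFunLike.congr_fun this G
  have hev0 : ∀ G : MvPolynomial (Fin m) Ω,
      Polynomial.aeval (0 : M) (MvPolynomial.aeval c G) = MvPolynomial.aeval P G := by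
    intro G
    have : ((Polynomial.aeval (R := M) (0 : M)).restrictScalars Ω).comp (MvPolynomial.aeval c) =
        MvPolynomial.aeval (R := Ω) P := by
      ext i
      have h1 : Polynomial.aeval (0 : M) (c i) = P i := by
        rw [← hc i, Polynomial.coeff_zero_eq_aeval_zero]
      simpa using h1
    exact DFunLike.congr_fun this G
  have key : ∀ G : MvPolynomial (Fin m) Ω,
      MvPolynomial.aeval (fun i => Polynomial.aeval t (c i)) G = 0 → L ∣ G := by
    intro G hG
    apply hL
    have h2 : MvPolynomial.aeval c G = 0 := coeff_zero_of ht _ ((hev G).trans hG)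
    rw [← hev0, h2, map_zero]
  have hLu : ¬ IsUnit L := by
    intro hu
    exact (hu.map (MvPolynomial.aeval P)).ne_zero hL0
  rw [algebraicIndependent_iff]
  intro G hG
  by_contra hne
  obtain ⟨k, G', hG', hGG⟩ := WfDvdMonoid.max_power_factor' hne hLu
  rw [hGG, map_mul, map_pow] at hG
  rcases mul_eq_zero.1 hG with h | h
  · have h1 := eq_zero_of_pow_eq_zero h
    rw [← hev] at h1
    exact hLt (coeff_zero_of ht _ h1)
  · exact hG' (key G' h)

/-- no curve of small degree is contained in the graph -/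
theorem graph_ne {M : Type} [Field M] (a b d : Polynomial M) (e : M) (N : ℕ)
    (ha : a.natDegree < N) (hb : b.natDegree < N) (hd : d.natDegree < N)
    (h : d = a ^ N + b ^ (N + 1) + Polynomial.C e) :
    a.natDegree = 0 ∧ b.natDegree = 0 ∧ d.natDegree = 0 := by
  have hN : 0 < N := lt_of_le_of_lt (Nat.zero_le _) ha
  have key : a.natDegree = 0 ∧ b.natDegree = 0 := by
    by_contra hcon
    have hne : (a ^ N).natDegree ≠ (b ^ (N + 1)).natDegree := by
      intro h1
      rw [Polynomial.natDegree_pow, Polynomial.natDegree_pow] at h1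
      have h2 : N ∣ b.natDegree := by
        have h3 : N ∣ (N + 1) * b.natDegree := ⟨_, h1.symm⟩
        have h4 : N.Coprime (N + 1) := by simp
        exact h4.dvd_of_dvd_mul_left h3
      have h5 : b.natDegree = 0 := Nat.eq_zero_of_dvd_of_lt h2 hb
      rw [h5, mul_zero] at h1
      rcases Nat.mul_eq_zero.1 h1 with h6 | h6
      · omega
      · exact hcon ⟨h6, h5⟩
    have h1 : (a ^ N + b ^ (N + 1)).natDegree =
        max (a ^ N).natDegree (b ^ (N + 1)).natDegree := by
      rcases lt_or_gt_of_ne hne with h2 | h2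
      · rw [Polynomial.natDegree_add_eq_right_of_natDegree_lt h2, max_eq_right h2.le]
      · rw [Polynomial.natDegree_add_eq_left_of_natDegree_lt h2, max_eq_left h2.le]
    have h2 : N ≤ (a ^ N + b ^ (N + 1)).natDegree := by
      rw [h1, Polynomial.natDegree_pow, Polynomial.natDegree_pow]
      rcases Nat.eq_zero_or_pos a.natDegree with h3 | h3
      · rcases Nat.eq_zero_or_pos b.natDegree with h4 | h4
        · exact absurd ⟨h3, h4⟩ hcon
        · exact le_max_of_le_right ((Nat.le_succ N).trans (Nat.le_mul_of_pos_right _ h4))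
      · exact le_max_of_le_left (Nat.le_mul_of_pos_right _ h3)
    have h3 : d.natDegree = (a ^ N + b ^ (N + 1)).natDegree := by
      rw [h]
      exact Polynomial.natDegree_add_C
    omega
  refine ⟨key.1, key.2, ?_⟩
  rw [h, Polynomial.natDegree_add_C]
  have h1 : (a ^ N).natDegree = 0 := by
    rw [Polynomial.natDegree_pow, key.1, mul_zero]
  have h2 : (b ^ (N + 1)).natDegree = 0 := by
    rw [Polynomial.natDegree_pow, key.2, mul_zero]
  have h3 := Polynomial.natDegree_add_le (a ^ N) (b ^ (N + 1))
  rw [h1, h2] at h3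
  simpa using h3

/-- **Lemma U.** -/
theorem uni_solid {Ω K : Type} [Field Ω] [IsAlgClosed Ω] [Field K] [Algebra Ω K]
    (h2 : (2 : Ω) ≠ 0) (w : Fin 3 → ℕ) (hw : 0 < ∑ i, w i) (B : MvPolynomial (Fin 3) Ω)
    (hB : ∀ m ∈ B.support, ∑ i, m i * w i ≤ 2 * ∑ i, w i) (x : Fin 3 → K) (r : K)
    (hr : r ^ 2 = MvPolynomial.aeval x B) (hgen : adjoin Ω (Set.range x ∪ {r}) = ⊤) :
    Uniruled Ω K 3 := by
  classical
  have hBK : MvPolynomial.aeval x B ∈ adjoin Ω (Set.range x) := by
    have h1 : MvPolynomial.aeval x B ∈ (MvPolynomial.aeval (R := Ω) x).range := ⟨B, rfl⟩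
    rw [← Algebra.adjoin_range_eq_range_aeval] at h1
    exact algebra_adjoin_le_adjoin Ω _ h1
  have hK : ∀ k : K, IsAlgebraic (adjoin Ω (Set.range x)) k := by
    intro k
    have h1 : adjoin Ω (Set.range x ∪ {r}) ≤ AF Ω (Set.range x) := by
      rw [adjoin_le_iff, Set.union_subset_iff, Set.singleton_subset_iff]
      refine ⟨subset_AF _, AF_root (n := 2) (by norm_num) ?_⟩
      rw [hr]
      exact adjoin_le_iff.2 (subset_AF _) hBK
    rw [hgen] at h1
    exact mem_AF.1 (h1 trivial)
  by_cases hx : AlgebraicIndependent Ω x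
  swap
  · exact uniruled_of_dep x hx hK
  by_cases hB0 : B = 0
  · subst hB0
    rw [map_zero] at hr
    have hr1 : r = 0 := eq_zero_of_pow_eq_zero hr
    refine ⟨K, inferInstance, inferInstance, AlgHom.id Ω K, {x 0, x 1}, x 2, ?_, fun k => ?_⟩
    · exact (Finset.card_le_two).trans_lt (by norm_num)
    · have h1 : adjoin Ω (Set.range x ∪ {r}) ≤
          adjoin Ω (Acl Ω ((({x 0, x 1} : Finset K)) : Set K) ∪ {x 2}) := by
        rw [adjoin_le_iff, Set.union_subset_iff, Set.singleton_subset_iff]
        constructor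
        · rintro _ ⟨i, rfl⟩
          fin_cases i
          · exact subset_adjoin _ _ (Or.inl (mem_AF.1 (subset_AF _ (by simp))))
          · exact subset_adjoin _ _ (Or.inl (mem_AF.1 (subset_AF _ (by simp))))
          · exact subset_adjoin _ _ (Or.inr rfl)
        · rw [hr1]
          exact zero_mem _
      rw [hgen] at h1
      exact h1 trivial
  -- the generic case
  let E := AlgebraicClosure K
  have h2E : (2 : E) ≠ 0 := by
    intro h
    apply h2
    apply (algebraMap Ω E).injective
    rw [map_ofNat, h, map_zero]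
  set x' : Fin 3 → E := fun i => algebraMap K E (x i) with hx'
  have hx'i : AlgebraicIndependent Ω x' := by
    have := hx.map' (f := (IsScalarTower.toAlgHom Ω K E)) (algebraMap K E).injective
    exact this
  obtain ⟨N, hN⟩ : ∃ N, N = 1 + ∑ i, w i := ⟨_, rfl⟩
  have hwN : ∀ i, w i < N := by
    intro i
    have := Finset.single_le_sum (f := w) (fun _ _ => Nat.zero_le _) (Finset.mem_univ i)
    omega
  obtain ⟨c, hc⟩ := exists_const B hB0 x' hx'i (x' 0 ^ N + x' 1 ^ (N + 1))
  set S : Finset E := {x' 0, x' 1} with hS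
  have hSE : (S : Set E) = {x' 0, x' 1} := by simp [hS]
  set M : IntermediateField Ω E := AF Ω (S : Set E) with hM
  have ht : Transcendental M (x' 2) := by
    have := trans_AF x' hx'i
    rw [hM, hSE]
    exact this
  have m0 : x' 0 ∈ M := subset_AF _ (by simp [hS])
  have m1 : x' 1 ∈ M := subset_AF _ (by simp [hS])
  let P : Fin 3 → M := ![⟨x' 0, m0⟩, ⟨x' 1, m1⟩,
    (⟨x' 0, m0⟩ : M) ^ N + (⟨x' 1, m1⟩ : M) ^ (N + 1) + algebraMap Ω M c]
  have hPB : MvPolynomial.aeval P B ≠ 0 := by
    intro h0
    apply hc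
    have h1 := congrArg (algebraMap M E) h0
    rw [map_zero, ← MvPolynomial.aeval_algebraMap_apply] at h1
    rw [← h1]
    congr 2
    funext i
    fin_cases i
    · rfl
    · rfl
    · rfl
  have hPB' : MvPolynomial.eval P (MvPolynomial.map (algebraMap Ω M) B) ≠ 0 := by
    rw [MvPolynomial.eval_map]
    exact hPB
  obtain ⟨cu, q, l, hc0, hcw, hcn, hq, hl, hcB⟩ := exists_curve
    (MvPolynomial.map (algebraMap Ω M) B) w hw
    (fun m hm => hB m (MvPolynomial.support_map_subset _ _ hm)) P hPB'
  have hcB' : MvPolynomial.aeval cu B = q * l ^ 2 := by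
    rw [← hcB, MvPolynomial.aeval_map_algebraMap]
  set φ' : MvPolynomial (Fin 2) Ω := MvPolynomial.X 0 ^ N + MvPolynomial.X 1 ^ (N + 1) +
    MvPolynomial.C c with hφ'
  set L : MvPolynomial (Fin 3) Ω := MvPolynomial.X 2 - MvPolynomial.rename Fin.castSucc φ' with hL
  have hLv : ∀ (A : Type) [CommRing A] [Algebra Ω A] (y : Fin 3 → A), MvPolynomial.aeval y L =
      y 2 - (y 0 ^ N + y 1 ^ (N + 1) + algebraMap Ω A c) := by
    intro A _ _ y
    simp only [hL, hφ', map_sub, map_add, map_pow, MvPolynomial.rename_X, MvPolynomial.rename_C,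
      MvPolynomial.aeval_X, MvPolynomial.aeval_C]
    simp
  have hLt : MvPolynomial.aeval cu L ≠ 0 := by
    intro h0
    rw [hLv, sub_eq_zero] at h0
    obtain ⟨i, hi⟩ := hcn
    obtain ⟨e0, e1, e2⟩ := graph_ne (cu 0) (cu 1) (cu 2) (algebraMap Ω M c) N
      ((hcw 0).trans_lt (hwN 0)) ((hcw 1).trans_lt (hwN 1)) ((hcw 2).trans_lt (hwN 2)) (by
        rw [h0]
        rfl)
    apply hi
    fin_cases i
    · exact e0
    · exact e1
    · exact e2
  have hind : AlgebraicIndependent Ω (fun i => Polynomial.aeval (x' 2) (cu i)) := by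
    refine indep_curve M P cu hc0 (x' 2) ht L ?_ ?_ hLt
    · rw [hLv, sub_eq_zero]
      rfl
    · intro G hG
      have ha : AlgebraicIndependent Ω (![⟨x' 0, m0⟩, ⟨x' 1, m1⟩] : Fin 2 → M) := by
        have h1 : AlgebraicIndependent Ω (fun i : Fin 2 => x' (Fin.castSucc i)) :=
          hx'i.comp _ (Fin.castSucc_injective 2)
        have h2 : (fun i : Fin 2 => x' (Fin.castSucc i)) =
            M.val ∘ (![⟨x' 0, m0⟩, ⟨x' 1, m1⟩] : Fin 2 → M) := by
          funext i
          fin_cases i
          · rfl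
          · rfl
        rw [h2] at h1
        exact AlgebraicIndependent.of_comp M.val h1
      exact dvd_of_graph P _ _ ha φ' rfl rfl rfl (by
        simp only [hφ', map_add, map_pow, MvPolynomial.aeval_X, MvPolynomial.aeval_C]
        rfl) G hG
  obtain ⟨g, hg⟩ := exists_embedding x hx hK _ hind
  have hgr : g r ^ 2 = Polynomial.aeval (x' 2) q * Polynomial.aeval (x' 2) l ^ 2 := by
    rw [← map_pow, hr, MvPolynomial.comp_aeval_apply, ← map_pow, ← map_mul, ← hcB']
    have h3 : ((Polynomial.aeval (R := M) (x' 2)).restrictScalars Ω).comp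
        (MvPolynomial.aeval cu) =
        MvPolynomial.aeval (R := Ω) (fun i => Polynomial.aeval (x' 2) (cu i)) := by
      ext i
      simp
    have h4 := DFunLike.congr_fun h3 B
    rw [show (fun i => g (x i)) = fun i => Polynomial.aeval (x' 2) (cu i) from funext hg, ← h4]
    rfl
  have hlt : Polynomial.aeval (x' 2) l ≠ 0 := fun h => hl (coeff_zero_of ht _ h)
  have hqt : Polynomial.aeval (x' 2) q =
      (q.coeff 0 : E) + (q.coeff 1 : E) * x' 2 + (q.coeff 2 : E) * x' 2 ^ 2 := by
    rw [Polynomial.aeval_eq_sum_range' (n := 3) (by omega)]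
    simp only [Finset.sum_range_succ, Finset.sum_range_zero, Algebra.smul_def, pow_zero, pow_one,
      mul_one, zero_add]
    rfl
  obtain ⟨θ, hθ⟩ := conic_param M h2E (q.coeff 0) (q.coeff 1) (q.coeff 2) (x' 2)
    (g r / Polynomial.aeval (x' 2) l) (by
      rw [div_pow, hgr, mul_div_assoc, div_self (pow_ne_zero _ hlt), mul_one, hqt])
  refine ⟨E, inferInstance, inferInstance, g, S, θ, ?_, fun k => ?_⟩
  · rw [hS]
    exact (Finset.card_le_two).trans_lt (by norm_num)
  · set F := adjoin Ω (Acl Ω (S : Set E) ∪ {θ}) with hF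
    have hMF : M ≤ F := by
      intro a ha
      exact subset_adjoin _ _ (Or.inl (mem_AF.1 ha))
    have hθF : θ ∈ F := subset_adjoin _ _ (Or.inr rfl)
    obtain ⟨h1, h2'⟩ := hθ F hMF hθF
    have hpol : ∀ p : Polynomial M, Polynomial.aeval (x' 2) p ∈ F := by
      intro p
      rw [Polynomial.aeval_eq_sum_range]
      refine F.sum_mem fun j _ => ?_
      rw [Algebra.smul_def]
      exact F.mul_mem (hMF (p.coeff j).2) (pow_mem h1 _)
    have h3 : adjoin Ω (Set.range x ∪ {r}) ≤ F.comap g := by
      rw [adjoin_le_iff, Set.union_subset_iff, Set.singleton_subset_iff]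
      constructor
      · rintro _ ⟨i, rfl⟩
        change g (x i) ∈ F
        rw [hg i]
        exact hpol _
      · change g r ∈ F
        have h4 := F.mul_mem h2' (hpol l)
        rwa [div_mul_cancel₀ _ hlt] at h4
    rw [hgen] at h3
    exact h3 trivial

end Pool.Agent.Helper35.UC
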